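import Mathlib
import Pool.Agent.Helper20.MR2.Main

/-!
The determinantal complexity of the permanent is at least `(2/3) (m-2) (m-3)` in
characteristic zero.

Idea.  At the Mignon-Ressayre point `X₀` the matrix `A₀ + ∑ X₀ i j A i j` has a kernel vector `v`,
and the permanent vanishes on `X₀ + D`, where `D` is the space of all `Y` with
`(∑ Y i j A i j) v = 0`, of codimension at most `n`.  On the elements of `D` which vanish on row and
column `o` and have zero row and column sums, the quadratic and the cubic term of the permanent
at `X₀` are multiples of the sums of the squares and of the cubes of the entries.  A partition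
lemma of Rado-Horn type shows that a subspace of `K^P` on which the sums of the first three powers
of the coordinates vanish has dimension less than `|P| / 3`.
-/

namespace Pool.Agent.Helper20.DCPerm.TwoThirds

theorem result {K : Type*} [Field K] [CharZero K] (m n : ℕ)
    (A₀ : Matrix (Fin n) (Fin n) K) (A : Fin m → Fin m → Matrix (Fin n) (Fin n) K)
    (h : ∀ X : Matrix (Fin m) (Fin m) K,
      (A₀ + ∑ i, ∑ j, X i j • A i j).det = X.permanent) :
    2 * ((m - 2) * (m - 3)) ≤ 3 * n :=
  Pool.Agent.Helper20.MR2.main_fin m n A₀ A h

end Pool.Agent.Helper20.DCPerm.TwoThirds
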